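import Pool.Agent.Helper30.DN.Nor
import Pool.Agent.Helper3.CK.Wr
import Pool.Agent.Helper3.CK.PT
import Pool.Graph.R_pool_sql_team_seeded_3997aac3.Q293.HT.Dom
import Pool.Agent.Helper45.DN.Ring
import Pool.Agent.Helper18.DN.Stein

/-!
# DN/Fin: the dominion of the normal subgroup, and consequences
-/

set_option autoImplicit false

namespace Pool.Agent.Helper30.DN

open Pool.Agent.W661.RC (HasT)
open Pool.Agent.H21R2 (IsHyperlinear IsSofic)
open Pool.Agent.Helper3.CK

noncomputable section

/-- Any two homomorphisms from `G` to a hyperlinear group which agree on `N` are equal. -/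
def Epi {G : Type} [Group G] (N : Subgroup G) : Prop :=
  ∀ (P : Type) [Group P], IsHyperlinear P → ∀ f g : G →* P, (∀ x ∈ N, f x = g x) → f = g

/-- A normal subgroup with property (T) whose quotient has no nontrivial homomorphism to a
hyperlinear group is an epimorphism. -/
theorem Grp.epi {G : Type} [Group G] {N : Subgroup G} (h : Grp G N) : Epi N := by
  have hn : N.Normal := h.nor
  have h1 := Pool.Agent.Q293.HT.dominion_hyp N (hasT_u h.tN)
  have hle : N ≤ (QuotientGroup.mk' (Pool.Agent.Q293.HT.Dominion N)).ker := by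
    rw [QuotientGroup.ker_mk']
    exact fun x hx Δ _ f₁ f₂ _ hf => hf x hx
  intro P _ hP f g hfg
  apply MonoidHom.ext
  intro x
  have h2 := h.hyp _ h1 (QuotientGroup.mk' (Pool.Agent.Q293.HT.Dominion N)) hle x
  have h3 : x ∈ Pool.Agent.Q293.HT.Dominion N := by
    rw [← QuotientGroup.ker_mk' (Pool.Agent.Q293.HT.Dominion N)]
    exact h2
  exact h3 P inferInstance f g hP hfg

section

variable {Q : Type} [Group Q] {K : Subgroup Q}

/-- No hyperlinear group contains `Q` and an element which commutes with `K` but not with `Q`. -/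
theorem Epi.not_hyp (hE : Epi K) {P : Type} [Group P] (j : Q →* P) (t : P)
    (h1 : ∀ x ∈ K, t * j x = j x * t) {y : Q} (h2 : t * j y ≠ j y * t) : ¬ IsHyperlinear P := by
  intro h
  have h3 := hE P h ((MulAut.conj t).toMonoidHom.comp j) j fun x hx => by
    show t * j x * t⁻¹ = j x
    rw [h1 x hx, mul_inv_cancel_right]
  apply h2
  have h4 : t * j y * t⁻¹ = j y := DFunLike.congr_fun h3 y
  exact mul_inv_eq_iff_eq_mul.1 h4

theorem exists_notMem (h : K ≠ ⊤) : ∃ y : Q, y ∉ K := by
  by_contra hcon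
  push Not at hcon
  exact h (eq_top_iff.2 fun y _ => hcon y)

theorem Epi.not_hyp_pwr (hE : Epi K) (h : K ≠ ⊤) (L : Type) [Group L] [Nontrivial L] :
    ¬ IsHyperlinear (PWr L K) := by
  obtain ⟨l, hl⟩ := exists_ne (1 : L)
  obtain ⟨y, hy⟩ := exists_notMem h
  exact hE.not_hyp SemidirectProduct.inr (SemidirectProduct.inl (lampL K l))
    (fun x hx => lampL_comm K hx l) (lampL_not_comm K hy hl)

theorem Epi.not_hyp_hnn (hE : Epi K) (h : K ≠ ⊤) :
    ¬ IsHyperlinear (HNNExtension Q K K (MulEquiv.refl K)) := by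
  obtain ⟨y, hy⟩ := exists_notMem h
  let f : HNNExtension Q K K (MulEquiv.refl K) →* Wr K :=
    HNNExtension.lift SemidirectProduct.inr (SemidirectProduct.inl (Pool.Agent.Helper8.CK.lamp K))
      fun a => (Pool.Agent.Helper8.CK.lamp_comm K _).2 a.2
  refine hE.not_hyp (HNNExtension.of : Q →* _) HNNExtension.t
    (fun x hx => HNNExtension.t_mul_of ⟨x, hx⟩) (y := y) fun h1 => ?_
  have ft : f HNNExtension.t = SemidirectProduct.inl (Pool.Agent.Helper8.CK.lamp K) :=
    HNNExtension.lift_t _ _ _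
  have fo : ∀ y : Q, f (HNNExtension.of y) = SemidirectProduct.inr y :=
    fun y => HNNExtension.lift_of _ _ _ y
  have h2 := congrArg f h1
  rw [f.map_mul, f.map_mul, ft, fo] at h2
  exact hy ((Pool.Agent.Helper8.CK.lamp_comm K _).1 h2)

theorem Epi.not_hyp_double (hE : Epi K) (h : K ≠ ⊤) :
    ¬ IsHyperlinear (Monoid.PushoutI (fun _ : Fin 2 => K.subtype)) := fun h1 =>
  hE.not_hyp_hnn h (((Pool.Agent.N44.HL.closed_tfae6 K).out 2 3).1 h1)

end

/-- a residually finite Kazhdan group and a proper normal Kazhdan subgroup which is an epimorphism -/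
structure NPair (G : Type) [Group G] (N : Subgroup G) : Prop where
  rf : RF G
  tG : HasT G
  tN : HasT N
  nor : N.Normal
  ne : N ≠ ⊤
  epi : Epi N

/-- NPAIR -/
def S_NPAIR : Prop := ∃ (G : Type) (_ : Group G) (N : Subgroup G), NPair G N

theorem npair_of (h : S_GRP) : S_NPAIR := by
  obtain ⟨G, _, N, hG⟩ := h
  exact ⟨G, inferInstance, N, hG.rf, hG.tG, hG.tN, hG.nor, hG.ne, hG.epi⟩

/-- **The normal pair.** -/
theorem s_npair : S_NPAIR :=
  npair_of (grp_of Pool.Agent.Helper45.DN.s_ring Pool.Agent.Helper18.DN.s_stein s_clos)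

end

end Pool.Agent.Helper30.DN
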