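import Pool.Agent.Helper30.DN.LT

/-!
# DN/El: elementary matrices of size seven
-/

set_option autoImplicit false

namespace Pool.Agent.Helper30.DN

open Pool.Agent.Helper278.TB (HP)
open Pool.Agent.W661.RC (HasT)

noncomputable section

/-- the units of the 7 x 7 matrices -/
abbrev W (B : Type) [Ring B] : Type := (Matrix (Fin 7) (Fin 7) B)ˣ

section

variable {B : Type} [Ring B]

theorem sg_mul {i j k l : Fin 7} (h : j ≠ k) (c d : B) :
    (Matrix.single i j c * Matrix.single k l d : Matrix (Fin 7) (Fin 7) B) = 0 :=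
  Matrix.single_mul_single_of_ne _ _ _ _ h _

/-- the elementary matrix `1 + c e_ij` (and `1` if `i = j`) -/
def el (i j : Fin 7) (c : B) : W B :=
  if h : i = j then 1 else
    { val := 1 + Matrix.single i j c
      inv := 1 + Matrix.single i j (-c)
      val_inv := by
        have h1 := sg_mul (B := B) (i := i) (j := j) (k := i) (l := j) (Ne.symm h) c (-c)
        simp only [mul_add, add_mul, one_mul, mul_one, h1, add_zero]
        rw [add_assoc, ← Matrix.single_add, add_neg_cancel, Matrix.single_zero, add_zero]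
      inv_val := by
        have h1 := sg_mul (B := B) (i := i) (j := j) (k := i) (l := j) (Ne.symm h) (-c) c
        simp only [mul_add, add_mul, one_mul, mul_one, h1, add_zero]
        rw [add_assoc, ← Matrix.single_add, neg_add_cancel, Matrix.single_zero, add_zero] }

theorem el_self (i : Fin 7) (c : B) : el i i c = 1 := by
  unfold el
  rw [dif_pos rfl]

theorem el_val {i j : Fin 7} (h : i ≠ j) (c : B) :
    ((el i j c : W B) : Matrix (Fin 7) (Fin 7) B) = 1 + Matrix.single i j c := by
  unfold el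
  rw [dif_neg h]

theorem el_add {i j : Fin 7} (h : i ≠ j) (c d : B) : el i j (c + d) = el i j c * el i j d := by
  apply Units.ext
  rw [Units.val_mul, el_val h, el_val h, el_val h, Matrix.single_add]
  simp only [mul_add, add_mul, one_mul, mul_one, sg_mul h.symm, add_zero]
  abel

theorem el_comm {i j k l : Fin 7} (hij : i ≠ j) (hkl : k ≠ l) (hjk : j ≠ k) (hil : i ≠ l)
    (c d : B) : el i j c * el k l d = el k l d * el i j c := by
  apply Units.ext
  rw [Units.val_mul, Units.val_mul, el_val hij, el_val hkl]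
  simp only [mul_add, add_mul, one_mul, mul_one, sg_mul hjk, sg_mul hil.symm, add_zero]
  abel

theorem el_rel {i j k : Fin 7} (hij : i ≠ j) (hjk : j ≠ k) (hik : i ≠ k) (c d : B) :
    el i j c * el j k d = el j k d * (el i j c * el i k (c * d)) := by
  apply Units.ext
  rw [Units.val_mul, Units.val_mul, Units.val_mul, el_val hij, el_val hjk, el_val hik]
  have h1 : (Matrix.single i j c * Matrix.single j k d : Matrix (Fin 7) (Fin 7) B) =
      Matrix.single i k (c * d) := Matrix.single_mul_single_same ..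
  simp only [mul_add, add_mul, one_mul, mul_one, h1, sg_mul hik.symm, sg_mul hij.symm, add_zero]
  abel

theorem el_zero (i j : Fin 7) : el i j (0 : B) = 1 := by
  by_cases h : i = j
  · rw [h, el_self]
  · have h1 := el_add h (0 : B) 0
    rw [add_zero] at h1
    exact left_eq_mul.mp h1

theorem el_neg (i j : Fin 7) (c : B) : el i j (-c) = (el i j c)⁻¹ := by
  by_cases h : i = j
  · rw [h, el_self, el_self, inv_one]
  · rw [eq_comm, inv_eq_iff_mul_eq_one, ← el_add h, add_neg_cancel, el_zero]

theorem el_mem_mul (S : Subgroup (W B)) {i j k : Fin 7} (hij : i ≠ j) (hjk : j ≠ k) (hik : i ≠ k)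
    {c d : B} (hc : el i j c ∈ S) (hd : el j k d ∈ S) : el i k (c * d) ∈ S := by
  have h := el_rel hij hjk hik c d
  have e : el i k (c * d) = (el i j c)⁻¹ * (el j k d)⁻¹ * (el i j c * el j k d) := by
    rw [h]
    group
  rw [e]
  exact mul_mem (mul_mem (inv_mem hc) (inv_mem hd)) (mul_mem hc hd)

/-- conjugation, first kind -/
theorem conj1 {k i j : Fin 7} (hki : k ≠ i) (hij : i ≠ j) (hkj : k ≠ j) (d c : B) :
    el k i d * el i j c * (el k i d)⁻¹ = el i j c * el k j (d * c) := by
  have h1 := el_comm hki hkj hki.symm hkj d (d * c)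
  rw [el_rel hki hij hkj, h1, ← mul_assoc, mul_inv_cancel_right]

/-- conjugation, second kind -/
theorem conj2 {j l i : Fin 7} (hjl : j ≠ l) (hij : i ≠ j) (hil : i ≠ l) (d c : B) :
    el j l d * el i j c * (el j l d)⁻¹ = el i j c * (el i l (c * d))⁻¹ := by
  have h1 := el_rel hij hjl hil c d
  have h2 : el j l d * el i j c = el i j c * el j l d * (el i l (c * d))⁻¹ := by
    rw [h1]
    have h3 := el_comm hij hil hij.symm hil c (c * d)
    rw [eq_mul_inv_iff_mul_eq, mul_assoc]
  have h4 := el_comm hjl hil hil.symm hjl d (c * d)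
  rw [h2, mul_assoc, mul_assoc, mul_right_inj, ← mul_assoc]
  have h5 : el j l d * (el i l (c * d))⁻¹ = (el i l (c * d))⁻¹ * el j l d := by
    rw [eq_inv_mul_iff_mul_eq, ← mul_assoc, ← h4, mul_inv_cancel_right]
  rw [h5, mul_inv_cancel_right]

variable {F : Type} [Field F] [Algebra F B]

/-- a line of elementary matrices -/
theorem line_add {i j : Fin 7} (h : i ≠ j) (c : B) (s s' : F) :
    el i j ((s + s') • c) = el i j (s • c) * el i j (s' • c) := by
  rw [add_smul, el_add h]

theorem smul_mul' (s s' : F) (c d : B) : (s • c) * (s' • d) = (s * s') • (c * d) := by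
  rw [smul_mul_assoc, mul_smul_comm, smul_smul]

/-- Heisenberg pairs of lines -/
theorem hp_el {i j k l : Fin 7} (hij : i ≠ j) (hkl : k ≠ l) (hop : ¬ (i = l ∧ j = k)) (c d : B) :
    HP (fun s : F => el i j (s • c)) (fun s : F => el k l (s • d)) ∨
      HP (fun s : F => el k l (s • d)) (fun s : F => el i j (s • c)) := by
  by_cases hjk : j = k
  · subst hjk
    have hil : i ≠ l := fun h => hop ⟨h, rfl⟩
    refine Or.inl ⟨fun s => el i l (s • (c * d)), fun a b => line_add hil _ _ _, fun a b => ?_,
      fun a b => el_comm hil hij hil.symm hij _ _, fun a b => el_comm hil hkl (by tauto) hil _ _⟩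
    have := el_rel hij hkl hil (a • c) (b • d)
    rwa [smul_mul'] at this
  · by_cases hil : i = l
    · subst hil
      have hkj : k ≠ j := fun h => hjk h.symm
      refine Or.inr ⟨fun s => el k j (s • (d * c)), fun a b => line_add hkj _ _ _, fun a b => ?_,
        fun a b => el_comm hkj hkl hkj.symm hkl _ _, fun a b => el_comm hkj hij hij.symm hkj _ _⟩
      have := el_rel hkl hij hkj (a • d) (b • c)
      rwa [smul_mul'] at this
    · refine Or.inl ⟨fun _ => 1, fun a b => by rw [one_mul], fun a b => ?_,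
        fun a b => by rw [one_mul, mul_one], fun a b => by rw [one_mul, mul_one]⟩
      rw [mul_one]
      exact el_comm hij hkl hjk hil _ _

/-- Property (T) of the group generated by lines of elementary matrices, no two of which are
opposite. -/
theorem hasT_lines [Fintype F] (hF : 1024 ≤ Fintype.card F) (n : ℕ) (h0 : 0 < n) (hn : n ≤ 32)
    (p : Fin n → Fin 7 × Fin 7) (c : Fin n → B) (hp : ∀ m, (p m).1 ≠ (p m).2)
    (hop : ∀ m m', ¬ ((p m).1 = (p m').2 ∧ (p m).2 = (p m').1)) :
    HasT (Subgroup.closure {g : W B | ∃ (m : Fin n) (s : F), g = el (p m).1 (p m).2 (s • c m)}) :=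
  s_lt (W B) F hF n h0 hn (fun m s => el (p m).1 (p m).2 (s • c m))
    (fun m _ _ => line_add (hp m) _ _ _) fun m m' _ => hp_el (hp m) (hp m') (hop m m') _ _

/-- the coefficients `c` such that `S` contains `el i j c` for all `i ≠ j` in `I` -/
def PI (S : Subgroup (W B)) (I : Finset (Fin 7)) (c : B) : Prop :=
  ∀ i ∈ I, ∀ j ∈ I, i ≠ j → el i j c ∈ S

variable {S : Subgroup (W B)} {I : Finset (Fin 7)}

theorem PI.add {c d : B} (hc : PI S I c) (hd : PI S I d) : PI S I (c + d) := by
  intro i hi j hj hij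
  rw [el_add hij]
  exact mul_mem (hc i hi j hj hij) (hd i hi j hj hij)

theorem PI.mul (h3 : ∀ i ∈ I, ∀ j ∈ I, ∃ k ∈ I, k ≠ i ∧ k ≠ j) {c d : B} (hc : PI S I c)
    (hd : PI S I d) : PI S I (c * d) := by
  intro i hi j hj hij
  obtain ⟨k, hk, hki, hkj⟩ := h3 i hi j hj
  exact el_mem_mul S hki.symm hkj hij (hc i hi k hk hki.symm) (hd k hk j hj hkj)

/-- one position is enough -/
theorem PI.of_one (h3 : ∀ i ∈ I, ∀ j ∈ I, ∃ k ∈ I, k ≠ i ∧ k ≠ j) (h1 : PI S I (1 : B)) {c : B}
    {i0 j0 : Fin 7} (hi0 : i0 ∈ I) (hj0 : j0 ∈ I) (h0 : i0 ≠ j0) (hc : el i0 j0 c ∈ S) :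
    PI S I c := by
  have hcol : ∀ j ∈ I, i0 ≠ j → el i0 j c ∈ S := by
    intro j hj hij
    by_cases hjj : j0 = j
    · rwa [← hjj]
    · have := el_mem_mul S h0 hjj hij hc (h1 j0 hj0 j hj hjj)
      rwa [mul_one] at this
  have hne : ∀ i ∈ I, ∀ j ∈ I, i ≠ j → j ≠ i0 → el i j c ∈ S := by
    intro i hi j hj hij hji
    by_cases hii : i = i0
    · rw [hii]
      exact hcol j hj (fun h => hji h.symm)
    · have := el_mem_mul S hii (fun h => hji h.symm) hij (h1 i hi i0 hi0 hii)
        (hcol j hj fun h => hji h.symm)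
      rwa [one_mul] at this
  intro i hi j hj hij
  by_cases hji : j = i0
  · obtain ⟨k, hk, hki, hkj⟩ := h3 i hi j hj
    have := el_mem_mul S hki.symm hkj hij (hne i hi k hk hki.symm (hji ▸ hkj)) (h1 k hk j hj hkj)
    rwa [mul_one] at this
  · exact hne i hi j hj hij hji

/-- all coefficients of the algebra generated -/
theorem PI.adjoin (h3 : ∀ i ∈ I, ∀ j ∈ I, ∃ k ∈ I, k ≠ i ∧ k ≠ j)
    (hs : ∀ s : F, PI S I (s • (1 : B))) {X : Set B} (hX : ∀ c ∈ X, PI S I c)
    (ht : Algebra.adjoin F X = ⊤) (c : B) : PI S I c := by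
  have hc : c ∈ Algebra.adjoin F X := by
    rw [ht]
    exact Algebra.mem_top
  induction hc using Algebra.adjoin_induction with
  | mem x hx => exact hX x hx
  | algebraMap r =>
    have := hs r
    rwa [Algebra.smul_def, mul_one] at this
  | add x y _ _ hx hy => exact hx.add hy
  | mul x y _ _ hx hy => exact PI.mul h3 hx hy

end

end

end Pool.Agent.Helper30.DN
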