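import Pool.Agent.Helper30.DN.El
import Pool.Graph.R_pool_sql_team_seeded_63374d34.N52.ST.Strong

/-!
# DN/Grp: the groups, their generation by lines and property (T)
-/

set_option autoImplicit false

namespace Pool.Agent.Helper30.DN

open Pool.Agent.W661.RC (HasT)

noncomputable section

section

variable {B : Type} [Ring B]

/-- the generators of `NN` -/
def gN (t : B) : Set (W B) :=
  {g | ∃ (i j : Fin 7) (c : B), i ≠ j ∧ (3 ≤ j → ∃ c', c = t * c') ∧ g = el i j c}

/-- the generators of `GG` -/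
def gG (t : B) : Set (W B) :=
  {g | ∃ (i j : Fin 7) (c : B), i ≠ j ∧ (i < 3 → 3 ≤ j → ∃ c', c = t * c') ∧ g = el i j c}

/-- the generators of `KK` -/
def gK (B : Type) [Ring B] : Set (W B) :=
  {g | ∃ (i j : Fin 7) (c : B), i ≠ j ∧ i ∈ ({3, 5, 6} : Finset (Fin 7)) ∧
    j ∈ ({3, 5, 6} : Finset (Fin 7)) ∧ g = el i j c}

/-- the small group -/
def NN (t : B) : Subgroup (W B) := Subgroup.closure (gN t)

/-- the big group -/
def GG (t : B) : Subgroup (W B) := Subgroup.closure (gG t)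

/-- the auxiliary group -/
def KK (B : Type) [Ring B] : Subgroup (W B) := Subgroup.closure (gK B)

theorem gN_sub (t : B) : gN t ⊆ gG t := by
  rintro g ⟨i, j, c, hij, hc, rfl⟩
  exact ⟨i, j, c, hij, fun _ h => hc h, rfl⟩

theorem NN_le (t : B) : NN t ≤ GG t := Subgroup.closure_mono (gN_sub t)

theorem mem_NN {t : B} {i j : Fin 7} (hij : i ≠ j) {c : B} (h : 3 ≤ j → ∃ c', c = t * c') :
    el i j c ∈ NN t := Subgroup.subset_closure ⟨i, j, c, hij, h, rfl⟩

theorem mem_GG {t : B} {i j : Fin 7} (hij : i ≠ j) {c : B}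
    (h : i < 3 → 3 ≤ j → ∃ c', c = t * c') : el i j c ∈ GG t :=
  Subgroup.subset_closure ⟨i, j, c, hij, h, rfl⟩

variable {F : Type} [Field F] [Algebra F B]

/-- the pair of indices is covered by the coefficients of the field -/
def Pf (F : Type) [Field F] [Algebra F B] (S : Subgroup (W B)) (i j : Fin 7) : Prop :=
  ∀ s : F, el i j (s • (1 : B)) ∈ S

theorem Pf.tr {S : Subgroup (W B)} {i j k : Fin 7} (h1 : Pf F S i j) (h2 : Pf F S j k)
    (hij : i ≠ j) (hjk : j ≠ k) (hik : i ≠ k) : Pf F S i k := by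
  intro s
  have h := el_mem_mul S hij hjk hik (h1 s) (h2 1)
  rwa [one_smul, mul_one] at h

theorem PI3 {S : Subgroup (W B)} {i j k : Fin 7} (hij : i ≠ j) (hjk : j ≠ k) (hki : k ≠ i)
    (h1 : Pf F S i j) (h2 : Pf F S j k) (h3 : Pf F S k i) (s : F) : PI S {i, j, k} (s • (1 : B)) := by
  have h4 := h1.tr h2 hij hjk hki.symm
  have h5 := h2.tr h3 hjk hki hij.symm
  have h6 := h3.tr h1 hki hij hjk.symm
  intro p hp q hq hpq
  simp only [Finset.mem_insert, Finset.mem_singleton] at hp hq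
  rcases hp with rfl | rfl | rfl <;> rcases hq with rfl | rfl | rfl <;>
    first
    | exact absurd rfl hpq
    | exact h1 s
    | exact h2 s
    | exact h3 s
    | exact h4 s
    | exact h5 s
    | exact h6 s

theorem PI4 {S : Subgroup (W B)} {i j k l : Fin 7} (hij : i ≠ j) (hik : i ≠ k) (hil : i ≠ l)
    (hjk : j ≠ k) (hjl : j ≠ l) (hkl : k ≠ l)
    (h1 : Pf F S i j) (h2 : Pf F S j k) (h3 : Pf F S k l) (h4 : Pf F S l i) (s : F) :
    PI S {i, j, k, l} (s • (1 : B)) := by
  have h5 := h1.tr h2 hij hjk hik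
  have h6 := h2.tr h3 hjk hkl hjl
  have h7 := h3.tr h4 hkl hil.symm hik.symm
  have h8 := h4.tr h1 hil.symm hij hjl.symm
  have h9 := h1.tr h6 hij hjl hil
  have h10 := h6.tr h4 hjl hil.symm hij.symm
  have h11 := h3.tr h8 hkl hjl.symm hjk.symm
  have h12 := h4.tr h5 hil.symm hik hkl.symm
  intro p hp q hq hpq
  simp only [Finset.mem_insert, Finset.mem_singleton] at hp hq
  rcases hp with rfl | rfl | rfl | rfl <;> rcases hq with rfl | rfl | rfl | rfl <;>
    first
    | exact absurd rfl hpq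
    | exact h1 s
    | exact h2 s
    | exact h3 s
    | exact h4 s
    | exact h5 s
    | exact h6 s
    | exact h7 s
    | exact h8 s
    | exact h9 s
    | exact h10 s
    | exact h11 s
    | exact h12 s

end

theorem c012 : ∀ i ∈ ({0, 1, 2} : Finset (Fin 7)), ∀ j ∈ ({0, 1, 2} : Finset (Fin 7)),
    ∃ k ∈ ({0, 1, 2} : Finset (Fin 7)), k ≠ i ∧ k ≠ j := by decide

theorem c3456 : ∀ i ∈ ({3, 4, 5, 6} : Finset (Fin 7)), ∀ j ∈ ({3, 4, 5, 6} : Finset (Fin 7)),
    ∃ k ∈ ({3, 4, 5, 6} : Finset (Fin 7)), k ≠ i ∧ k ≠ j := by decide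

theorem c356 : ∀ i ∈ ({3, 5, 6} : Finset (Fin 7)), ∀ j ∈ ({3, 5, 6} : Finset (Fin 7)),
    ∃ k ∈ ({3, 5, 6} : Finset (Fin 7)), k ≠ i ∧ k ≠ j := by decide

theorem m012 : ∀ i : Fin 7, i < 3 → i ∈ ({0, 1, 2} : Finset (Fin 7)) := by decide

theorem m3456 : ∀ i : Fin 7, 3 ≤ i → i ∈ ({3, 4, 5, 6} : Finset (Fin 7)) := by decide

section

variable {B : Type} [Ring B] [Algebra F B] {x y a b u v t : B}

theorem full {S : Subgroup (W B)} {I : Finset (Fin 7)}
    (h3 : ∀ i ∈ I, ∀ j ∈ I, ∃ k ∈ I, k ≠ i ∧ k ≠ j) (D : Dat B x y a b u v t)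
    (hs : ∀ s : F, PI S I (s • (1 : B)))
    {i0 j0 : Fin 7} (hi0 : i0 ∈ I) (hj0 : j0 ∈ I) (h0 : i0 ≠ j0)
    (hX : ∀ c ∈ ({x, y, a, b, u, v, t} : Set B), el i0 j0 c ∈ S) (c : B) : PI S I c := by
  have h1 : PI S I (1 : B) := by
    have := hs 1
    rwa [one_smul] at this
  exact PI.adjoin h3 hs (fun c hc => PI.of_one h3 h1 hi0 hj0 h0 (hX c hc)) D.gen c

/-- a subgroup which contains enough lines contains `NN` -/
theorem NN_le_of (D : Dat B x y a b u v t) (S : Subgroup (W B))
    (h01 : Pf F S 0 1) (h12 : Pf F S 1 2) (h20 : Pf F S 2 0)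
    (hX : ∀ c ∈ ({x, y, a, b, u, v} : Set B), el 2 0 c ∈ S)
    (h0 : ∀ j : Fin 7, 3 ≤ j → el 0 j t ∈ S) (h1 : ∀ j : Fin 7, 3 ≤ j → el j 1 (1 : B) ∈ S) :
    NN t ≤ S := by
  have e01 : ∀ s : F, PI S {0, 1, 2} (s • (1 : B)) := fun s =>
    PI3 (by decide) (by decide) (by decide) h01 h12 h20 s
  have ePI1 : PI S {0, 1, 2} (1 : B) := by
    have := e01 1
    rwa [one_smul] at this
  have ht : el 2 0 t ∈ S := by
    have h := el_mem_mul S (i := 0) (j := 3) (k := 1) (by decide) (by decide) (by decide)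
      (h0 3 (by decide)) (h1 3 (by decide))
    rw [mul_one] at h
    exact PI.of_one c012 ePI1 (by decide) (by decide) (by decide) h 2 (by decide) 0 (by decide)
      (by decide)
  have hA : ∀ c : B, PI S {0, 1, 2} c := by
    refine full c012 D e01 (i0 := 2) (j0 := 0) (by decide) (by decide) (by decide) ?_
    intro c hc
    simp only [Set.mem_insert_iff, Set.mem_singleton_iff] at hc hX
    rcases hc with h | h | h | h | h | h | h
    · exact hX c (Or.inl h)
    · exact hX c (Or.inr (Or.inl h))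
    · exact hX c (Or.inr (Or.inr (Or.inl h)))
    · exact hX c (Or.inr (Or.inr (Or.inr (Or.inl h))))
    · exact hX c (Or.inr (Or.inr (Or.inr (Or.inr (Or.inl h)))))
    · exact hX c (Or.inr (Or.inr (Or.inr (Or.inr (Or.inr h)))))
    · rw [h]
      exact ht
  -- lower left block
  have hB0 : ∀ i j : Fin 7, 3 ≤ i → j < 3 → j ≠ 1 → ∀ c : B, el i j c ∈ S := by
    intro i j hi hj hj1 c
    have hi1 : i ≠ 1 := by
      rintro rfl
      exact absurd hi (by decide)
    have hij : i ≠ j := by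
      rintro rfl
      exact absurd hi (by omega)
    have h := el_mem_mul S hi1 hj1.symm hij (h1 i hi)
      (hA c 1 (by decide) j (m012 j hj) hj1.symm)
    rwa [one_mul] at h
  have hB : ∀ i j : Fin 7, 3 ≤ i → j < 3 → ∀ c : B, el i j c ∈ S := by
    intro i j hi hj c
    by_cases hj1 : j = 1
    · subst hj1
      have hi0 : i ≠ 0 := by
        rintro rfl
        exact absurd hi (by decide)
      have hi1 : i ≠ 1 := by
        rintro rfl
        exact absurd hi (by decide)
      have h := el_mem_mul S hi0 (by decide) hi1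
        (hB0 i 0 hi (by decide) (by decide) c)
        (hA 1 0 (by decide) 1 (by decide) (by decide))
      rwa [mul_one] at h
    · exact hB0 i j hi hj hj1 c
  -- upper right block
  have hC0 : ∀ i j : Fin 7, i < 3 → 3 ≤ j → i ≠ 0 → ∀ c : B, el i j (c * t) ∈ S := by
    intro i j hi hj hi0 c
    have hj0 : (0 : Fin 7) ≠ j := by
      rintro rfl
      exact absurd hj (by decide)
    have hij : i ≠ j := by
      rintro rfl
      exact absurd hj (by omega)
    exact el_mem_mul S hi0 hj0 hij (hA c i (m012 i hi) 0 (by decide) hi0) (h0 j hj)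
  have hC : ∀ i j : Fin 7, i < 3 → 3 ≤ j → ∀ c : B, el i j (c * t) ∈ S := by
    intro i j hi hj c
    by_cases hi0 : i = 0
    · subst hi0
      have hj0 : (0 : Fin 7) ≠ j := by
        rintro rfl
        exact absurd hj (by decide)
      have hj1 : (1 : Fin 7) ≠ j := by
        rintro rfl
        exact absurd hj (by decide)
      have h := el_mem_mul S (i := 0) (j := 1) (k := j) (by decide) hj1 hj0
        (hA 1 0 (by decide) 1 (by decide) (by decide)) (hC0 1 j (by decide) hj (by decide) c)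
      rwa [one_mul] at h
    · exact hC0 i j hi hj hi0 c
  -- lower right block
  have hD : ∀ i j : Fin 7, 3 ≤ i → 3 ≤ j → i ≠ j → ∀ c : B, el i j (c * t) ∈ S := by
    intro i j hi hj hij c
    have hj0 : (0 : Fin 7) ≠ j := by
      rintro rfl
      exact absurd hj (by decide)
    have hi0 : i ≠ 0 := by
      rintro rfl
      exact absurd hi (by decide)
    exact el_mem_mul S hi0 hj0 hij (hB i 0 hi (by decide) c) (h0 j hj)
  rw [NN, Subgroup.closure_le]
  rintro g ⟨i, j, c, hij, hc, rfl⟩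
  by_cases hj : 3 ≤ j
  · obtain ⟨c', rfl⟩ := hc hj
    rw [D.tc]
    by_cases hi : 3 ≤ i
    · exact hD i j hi hj hij c'
    · exact hC i j (not_le.1 hi) hj c'
  · by_cases hi : 3 ≤ i
    · exact hB i j hi (not_le.1 hj) c
    · exact hA c i (m012 i (not_le.1 hi)) j (m012 j (not_le.1 hj)) hij

/-- a subgroup which contains enough lines contains `GG` -/
theorem GG_le_of (D : Dat B x y a b u v t) (S : Subgroup (W B)) (hN : NN t ≤ S)
    (h34 : Pf F S 3 4) (h45 : Pf F S 4 5) (h56 : Pf F S 5 6) (h63 : Pf F S 6 3)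
    (hX : ∀ c ∈ ({x, y, a, b, u, v} : Set B), el 6 3 c ∈ S) : GG t ≤ S := by
  have e : ∀ s : F, PI S {3, 4, 5, 6} (s • (1 : B)) := fun s =>
    PI4 (by decide) (by decide) (by decide) (by decide) (by decide) (by decide) h34 h45 h56 h63 s
  have hA : ∀ c : B, PI S {3, 4, 5, 6} c := by
    refine full c3456 D e (i0 := 6) (j0 := 3) (by decide) (by decide) (by decide) ?_
    intro c hc
    simp only [Set.mem_insert_iff, Set.mem_singleton_iff] at hc hX
    rcases hc with h | h | h | h | h | h | h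
    · exact hX c (Or.inl h)
    · exact hX c (Or.inr (Or.inl h))
    · exact hX c (Or.inr (Or.inr (Or.inl h)))
    · exact hX c (Or.inr (Or.inr (Or.inr (Or.inl h))))
    · exact hX c (Or.inr (Or.inr (Or.inr (Or.inr (Or.inl h)))))
    · exact hX c (Or.inr (Or.inr (Or.inr (Or.inr (Or.inr h)))))
    · rw [h]
      exact hN (mem_NN (by decide) fun _ => ⟨1, by rw [mul_one]⟩)
  rw [GG, Subgroup.closure_le]
  rintro g ⟨i, j, c, hij, hc, rfl⟩
  by_cases hj : 3 ≤ j
  · by_cases hi : 3 ≤ i
    · exact hA c i (m3456 i hi) j (m3456 j hj) hij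
    · exact hN (mem_NN hij fun _ => hc (not_le.1 hi) hj)
  · exact hN (mem_NN hij fun h => absurd h hj)

/-- a subgroup which contains enough lines contains `KK` -/
theorem KK_le_of (D : Dat B x y a b u v t) (S : Subgroup (W B))
    (h35 : Pf F S 3 5) (h56 : Pf F S 5 6) (h63 : Pf F S 6 3)
    (hX : ∀ c ∈ ({x, y, a, b, u, v, t} : Set B), el 6 3 c ∈ S) : KK B ≤ S := by
  have e : ∀ s : F, PI S {3, 5, 6} (s • (1 : B)) := fun s =>
    PI3 (by decide) (by decide) (by decide) h35 h56 h63 s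
  have hA : ∀ c : B, PI S {3, 5, 6} c :=
    full c356 D e (i0 := 6) (j0 := 3) (by decide) (by decide) (by decide) hX
  rw [KK, Subgroup.closure_le]
  rintro g ⟨i, j, c, hij, hi, hj, rfl⟩
  exact hA c i hi j hj hij

end

/-! ### Property (T) -/

section

variable {B : Type} [Ring B] [Algebra F B]

theorem cardF : 1024 ≤ Fintype.card F := by
  rw [ZMod.card]
  norm_num

/-- positions of the lines of `NN` -/
def pN : Fin 17 → Fin 7 × Fin 7 :=
  ![(0, 1), (1, 2), (2, 0), (2, 0), (2, 0), (2, 0), (2, 0), (2, 0), (2, 0),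
    (0, 3), (0, 4), (0, 5), (0, 6), (3, 1), (4, 1), (5, 1), (6, 1)]

/-- coefficients of the lines of `NN` -/
def cN (x y a b u v t : B) : Fin 17 → B :=
  ![1, 1, 1, x, y, a, b, u, v, t, t, t, t, 1, 1, 1, 1]

/-- positions of the lines of `GG` -/
def pG : Fin 27 → Fin 7 × Fin 7 :=
  ![(0, 1), (1, 2), (2, 0), (2, 0), (2, 0), (2, 0), (2, 0), (2, 0), (2, 0),
    (0, 3), (0, 4), (0, 5), (0, 6), (3, 1), (4, 1), (5, 1), (6, 1),
    (3, 4), (4, 5), (5, 6), (6, 3), (6, 3), (6, 3), (6, 3), (6, 3), (6, 3), (6, 3)]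

/-- coefficients of the lines of `GG` -/
def cG (x y a b u v t : B) : Fin 27 → B :=
  ![1, 1, 1, x, y, a, b, u, v, t, t, t, t, 1, 1, 1, 1, 1, 1, 1, 1, x, y, a, b, u, v]

/-- positions of the lines of `KK` -/
def pK : Fin 10 → Fin 7 × Fin 7 :=
  ![(3, 5), (5, 6), (6, 3), (6, 3), (6, 3), (6, 3), (6, 3), (6, 3), (6, 3), (6, 3)]

/-- coefficients of the lines of `KK` -/
def cK (x y a b u v t : B) : Fin 10 → B :=
  ![1, 1, 1, x, y, a, b, u, v, t]

theorem pN_ne : ∀ m, (pN m).1 ≠ (pN m).2 := by decide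

theorem pN_op : ∀ m m', ¬ ((pN m).1 = (pN m').2 ∧ (pN m).2 = (pN m').1) := by decide

theorem pG_ne : ∀ m, (pG m).1 ≠ (pG m).2 := by decide

theorem pG_op : ∀ m m', ¬ ((pG m).1 = (pG m').2 ∧ (pG m).2 = (pG m').1) := by decide +kernel

theorem pK_ne : ∀ m, (pK m).1 ≠ (pK m).2 := by decide

theorem pK_op : ∀ m m', ¬ ((pK m).1 = (pK m').2 ∧ (pK m).2 = (pK m').1) := by decide

theorem pK_in : ∀ m, (pK m).1 ∈ ({3, 5, 6} : Finset (Fin 7)) ∧
    (pK m).2 ∈ ({3, 5, 6} : Finset (Fin 7)) := by decide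

variable {x y a b u v t : B}

omit [Algebra F B] in
theorem cN_t : ∀ m, 3 ≤ (pN m).2 → cN x y a b u v t m = t := by
  intro m
  fin_cases m <;> first | exact fun _ => rfl | exact fun h => absurd h (by decide)

omit [Algebra F B] in
theorem cG_t : ∀ m, (pG m).1 < 3 → 3 ≤ (pG m).2 → cG x y a b u v t m = t := by
  intro m
  fin_cases m <;> first | exact fun _ _ => rfl | exact fun h => absurd h (by decide) |
    exact fun _ h => absurd h (by decide)

theorem tN (D : Dat B x y a b u v t) : HasT (NN t) := by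
  set S := Subgroup.closure {g : W B | ∃ (m : Fin 17) (s : F),
    g = el (pN m).1 (pN m).2 (s • cN x y a b u v t m)} with hS
  have hT : HasT S := hasT_lines cardF 17 (by norm_num) (by norm_num) pN _ pN_ne pN_op
  have hl : ∀ (m : Fin 17) (s : F), el (pN m).1 (pN m).2 (s • cN x y a b u v t m) ∈ S :=
    fun m s => Subgroup.subset_closure ⟨m, s, rfl⟩
  have hl1 : ∀ (m : Fin 17), el (pN m).1 (pN m).2 (cN x y a b u v t m) ∈ S := by
    intro m
    have := hl m 1
    rwa [one_smul] at this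
  have e : NN t = S := by
    apply le_antisymm
    · refine NN_le_of D S (hl 0) (hl 1) (hl 2) ?_ ?_ ?_
      · intro c hc
        simp only [Set.mem_insert_iff, Set.mem_singleton_iff] at hc
        rcases hc with rfl | rfl | rfl | rfl | rfl | rfl
        exacts [hl1 3, hl1 4, hl1 5, hl1 6, hl1 7, hl1 8]
      · intro j hj
        have : j = 3 ∨ j = 4 ∨ j = 5 ∨ j = 6 := by
          revert j
          decide
        rcases this with rfl | rfl | rfl | rfl
        exacts [hl1 9, hl1 10, hl1 11, hl1 12]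
      · intro j hj
        have : j = 3 ∨ j = 4 ∨ j = 5 ∨ j = 6 := by
          revert j
          decide
        rcases this with rfl | rfl | rfl | rfl
        exacts [hl1 13, hl1 14, hl1 15, hl1 16]
    · rw [hS, Subgroup.closure_le]
      rintro g ⟨m, s, rfl⟩
      refine mem_NN (pN_ne m) fun h => ⟨s • 1, ?_⟩
      rw [cN_t m h, mul_smul_comm, mul_one]
  rw [e]
  exact hT

theorem tG (D : Dat B x y a b u v t) : HasT (GG t) := by
  set S := Subgroup.closure {g : W B | ∃ (m : Fin 27) (s : F),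
    g = el (pG m).1 (pG m).2 (s • cG x y a b u v t m)} with hS
  have hT : HasT S := hasT_lines cardF 27 (by norm_num) (by norm_num) pG _ pG_ne pG_op
  have hl : ∀ (m : Fin 27) (s : F), el (pG m).1 (pG m).2 (s • cG x y a b u v t m) ∈ S :=
    fun m s => Subgroup.subset_closure ⟨m, s, rfl⟩
  have hl1 : ∀ (m : Fin 27), el (pG m).1 (pG m).2 (cG x y a b u v t m) ∈ S := by
    intro m
    have := hl m 1
    rwa [one_smul] at this
  have hN : NN t ≤ S := by
    refine NN_le_of D S (hl 0) (hl 1) (hl 2) ?_ ?_ ?_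
    · intro c hc
      simp only [Set.mem_insert_iff, Set.mem_singleton_iff] at hc
      rcases hc with rfl | rfl | rfl | rfl | rfl | rfl
      exacts [hl1 3, hl1 4, hl1 5, hl1 6, hl1 7, hl1 8]
    · intro j hj
      have : j = 3 ∨ j = 4 ∨ j = 5 ∨ j = 6 := by
        revert j
        decide
      rcases this with rfl | rfl | rfl | rfl
      exacts [hl1 9, hl1 10, hl1 11, hl1 12]
    · intro j hj
      have : j = 3 ∨ j = 4 ∨ j = 5 ∨ j = 6 := by
        revert j
        decide
      rcases this with rfl | rfl | rfl | rfl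
      exacts [hl1 13, hl1 14, hl1 15, hl1 16]
  have e : GG t = S := by
    apply le_antisymm
    · refine GG_le_of D S hN (hl 17) (hl 18) (hl 19) (hl 20) ?_
      intro c hc
      simp only [Set.mem_insert_iff, Set.mem_singleton_iff] at hc
      rcases hc with rfl | rfl | rfl | rfl | rfl | rfl
      exacts [hl1 21, hl1 22, hl1 23, hl1 24, hl1 25, hl1 26]
    · rw [hS, Subgroup.closure_le]
      rintro g ⟨m, s, rfl⟩
      refine mem_GG (pG_ne m) fun h h' => ⟨s • 1, ?_⟩
      rw [cG_t m h h', mul_smul_comm, mul_one]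
  rw [e]
  exact hT

theorem tK (D : Dat B x y a b u v t) : HasT (KK B) := by
  set S := Subgroup.closure {g : W B | ∃ (m : Fin 10) (s : F),
    g = el (pK m).1 (pK m).2 (s • cK x y a b u v t m)} with hS
  have hT : HasT S := hasT_lines cardF 10 (by norm_num) (by norm_num) pK _ pK_ne pK_op
  have hl : ∀ (m : Fin 10) (s : F), el (pK m).1 (pK m).2 (s • cK x y a b u v t m) ∈ S :=
    fun m s => Subgroup.subset_closure ⟨m, s, rfl⟩
  have hl1 : ∀ (m : Fin 10), el (pK m).1 (pK m).2 (cK x y a b u v t m) ∈ S := by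
    intro m
    have := hl m 1
    rwa [one_smul] at this
  have e : KK B = S := by
    apply le_antisymm
    · refine KK_le_of D S (hl 0) (hl 1) (hl 2) ?_
      intro c hc
      simp only [Set.mem_insert_iff, Set.mem_singleton_iff] at hc
      rcases hc with rfl | rfl | rfl | rfl | rfl | rfl | rfl
      exacts [hl1 3, hl1 4, hl1 5, hl1 6, hl1 7, hl1 8, hl1 9]
    · rw [hS, Subgroup.closure_le]
      rintro g ⟨m, s, rfl⟩
      exact Subgroup.subset_closure ⟨_, _, _, pK_ne m, (pK_in m).1, (pK_in m).2, rfl⟩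
  rw [e]
  exact hT

end

end

end Pool.Agent.Helper30.DN
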