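import Pool.Agent.Helper30.DN.Stm

/-!
# DN/LT: property (T) for groups generated by at most 32 lines
-/

set_option autoImplicit false

open scoped InnerProductSpace

namespace Pool.Agent.Helper30.DN

open Pool.Agent.Helper455.KZ
open Pool.Agent.Helper278.TB
open Pool.Agent.W661.RC (HasT)

section KT

variable {Γ : Type} [Group Γ] {K : Type} [Field K] [Fintype K]
variable {H : Type} [NormedAddCommGroup H] [InnerProductSpace ℂ H] [CompleteSpace H]

theorem pair_est' (hK : 1024 ≤ Fintype.card K) (π : Γ →* unitary (H →L[ℂ] H)) (u u' : K → Γ)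
    (hu : ∀ a b, u (a + b) = u a * u b) (hu' : ∀ a b, u' (a + b) = u' a * u' b)
    (hp : HP u u') (v : H) :
    0 ≤ 2 * (⟪co (avg (uop π u)) v, co (avg (uop π u')) v⟫_ℂ).re +
      (1 / 32) * (‖co (avg (uop π u)) v‖ ^ 2 + ‖co (avg (uop π u')) v‖ ^ 2) := by
  obtain ⟨z, hz, hrel, h1, h2⟩ := hp
  refine heis_pair (uop_rep π u hu) (uop_rep π u' hu') (uop_rep π z hz) ?_ ?_ ?_
    (1 / 32) (by norm_num) (by norm_num) ?_ v
  · intro a b x
    show (π (u a) : H →L[ℂ] H) ((π (u' b) : H →L[ℂ] H) x) = (π (u' b) : H →L[ℂ] H)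
      ((π (u a) : H →L[ℂ] H) ((π (z (a * b)) : H →L[ℂ] H) x))
    rw [← uop_mul, ← uop_mul, ← uop_mul, hrel, mul_assoc]
  · intro a b x
    show (π (z a) : H →L[ℂ] H) ((π (u b) : H →L[ℂ] H) x) = (π (u b) : H →L[ℂ] H)
      ((π (z a) : H →L[ℂ] H) x)
    rw [← uop_mul, ← uop_mul, h1]
  · intro a b x
    show (π (z a) : H →L[ℂ] H) ((π (u' b) : H →L[ℂ] H) x) = (π (u' b) : H →L[ℂ] H)
      ((π (z a) : H →L[ℂ] H) x)
    rw [← uop_mul, ← uop_mul, h2]
  · have : (1024 : ℝ) ≤ Fintype.card K := by exact_mod_cast hK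
    calc ((Fintype.card K : ℝ))⁻¹ ≤ (1024 : ℝ)⁻¹ := inv_anti₀ (by norm_num) this
      _ = (1 / 32 : ℝ) ^ 2 := by norm_num

end KT

/-- Property (T) for groups generated by at most 32 lines, any two of which form a Heisenberg
pair. -/
theorem propT_lines' {Γ : Type} [Group Γ] {K : Type} [Field K] [Fintype K]
    (hK : 1024 ≤ Fintype.card K) {n : ℕ} (hn0 : 0 < n) (hn : n ≤ 32) (u : Fin n → K → Γ)
    (hadd : ∀ i a b, u i (a + b) = u i a * u i b)
    (pair : ∀ i j, i ≠ j → HP (u i) (u j) ∨ HP (u j) (u i))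
    (gen : Subgroup.closure {g | ∃ i t, g = u i t} = ⊤) : HasT Γ := by
  classical
  have hcard : Fintype.card (Fin n) = n := Fintype.card_fin n
  have hn1 : (1 : ℝ) ≤ n := by exact_mod_cast hn0
  have hn2 : (n : ℝ) ≤ 32 := by exact_mod_cast hn
  have hc : (0 : ℝ) < 1 - ((n : ℝ) - 1) * (1 / 32) := by linarith
  have hc1 : 1 - ((n : ℝ) - 1) * (1 / 32) ≤ 1 := by linarith
  intro H _ _ _ π hπ
  obtain ⟨v, hv, hsm⟩ := hπ ((Finset.univ : Finset (Fin n × K)).image (fun q => u q.1 q.2))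
    (thr n (1 - ((n : ℝ) - 1) * (1 / 32))) (thr_pos _ _ hn1 hc)
  let Q : Fin n → H → H := fun i => co (avg (uop π (u i)))
  have hrep : ∀ i, URep (uop π (u i)) := fun i => uop_rep π _ (hadd i)
  have hQ : ∀ i, Proj (Q i) := fun i => (hrep i).avg_proj.co
  have hpair : ∀ i j, i ≠ j → ∀ v, 0 ≤ 2 * (⟪Q i v, Q j v⟫_ℂ).re +
      (1 / 32) * (‖Q i v‖ ^ 2 + ‖Q j v‖ ^ 2) := by
    intro i j hij v
    rcases pair i j hij with h | h
    · exact pair_est' hK π (u i) (u j) (hadd i) (hadd j) h v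
    · have := pair_est' hK π (u j) (u i) (hadd j) (hadd i) h v
      have e : (⟪Q i v, Q j v⟫_ℂ).re = (⟪Q j v, Q i v⟫_ℂ).re := by
        rw [← inner_conj_symm, Complex.conj_re]
      rw [e, add_comm (‖Q i v‖ ^ 2)]
      exact this
  have hDE : ∀ v, (1 - ((n : ℝ) - 1) * (1 / 32)) * EE Q v ≤ ‖DD Q v‖ ^ 2 := by
    intro v
    have := DD_lower Q (1 / 32) hpair v
    rwa [hcard] at this
  have hv' : ∀ i, ‖Q i v‖ ≤ thr (Fintype.card (Fin n) : ℝ) (1 - ((n : ℝ) - 1) * (1 / 32)) := by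
    intro i
    rw [hcard]
    refine co_avg_small v _ fun a => ?_
    exact (hsm (u i a) (Finset.mem_image.mpr ⟨(i, a), Finset.mem_univ _, rfl⟩)).le
  obtain ⟨w, hw, hwi⟩ := exists_invariant (by rw [hcard]; exact hn0) Q hQ _ hc hc1 hDE v hv hv'
  refine ⟨w, hw, ?_⟩
  let St : Subgroup Γ :=
    { carrier := {g | (π g : H →L[ℂ] H) w = w}
      one_mem' := by simp
      mul_mem' := by
        intro a b ha hb
        show (π (a * b) : H →L[ℂ] H) w = w
        have ha' : (π a : H →L[ℂ] H) w = w := ha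
        have hb' : (π b : H →L[ℂ] H) w = w := hb
        rw [uop_mul, hb', ha']
      inv_mem' := by
        intro a ha
        show (π a⁻¹ : H →L[ℂ] H) w = w
        have ha' : (π a : H →L[ℂ] H) w = w := ha
        have h1 : (π a⁻¹ : H →L[ℂ] H) ((π a : H →L[ℂ] H) w) = w := by
          rw [← uop_mul, inv_mul_cancel]; simp
        rwa [ha'] at h1 }
  have hle : Subgroup.closure {g | ∃ i t, g = u i t} ≤ St := by
    rw [Subgroup.closure_le]
    rintro _ ⟨i, t, rfl⟩
    show (π (u i t) : H →L[ℂ] H) w = w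
    have h1 : avg (uop π (u i)) w = w := by
      have : w - avg (uop π (u i)) w = 0 := hwi i
      rw [sub_eq_zero] at this
      exact this.symm
    have h3 := (hrep i).fix_avg t w
    rw [h1] at h3
    exact h3
  intro g
  rw [gen] at hle
  exact hle (Subgroup.mem_top g)

/-- **LT.** -/
theorem s_lt : S_LT := by
  intro Γ _ K _ _ hK n hn0 hn u hadd pair
  set S : Subgroup Γ := Subgroup.closure {g | ∃ i t, g = u i t} with hS
  have hmem : ∀ i t, u i t ∈ S := fun i t => Subgroup.subset_closure ⟨i, t, rfl⟩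
  have hz : ∀ i j (z : K → Γ), (∀ a b, u i a * u j b = u j b * (u i a * z (a * b))) →
      ∀ a, z a ∈ S := by
    intro i j z h a
    have h1 := h a 1
    rw [mul_one] at h1
    have e : z a = (u i a)⁻¹ * ((u j 1)⁻¹ * (u i a * u j 1)) := by
      rw [h1]; group
    rw [e]
    exact mul_mem (inv_mem (hmem i a)) (mul_mem (inv_mem (hmem j 1)) (mul_mem (hmem i a) (hmem j 1)))
  have hp : ∀ i j, HP (u i) (u j) →
      HP (fun t => (⟨u i t, hmem i t⟩ : S)) (fun t => (⟨u j t, hmem j t⟩ : S)) := by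
    rintro i j ⟨z, h1, h2, h3, h4⟩
    exact ⟨fun a => ⟨z a, hz i j z h2 a⟩, fun a b => Subtype.ext (h1 a b),
      fun a b => Subtype.ext (h2 a b), fun a b => Subtype.ext (h3 a b),
      fun a b => Subtype.ext (h4 a b)⟩
  refine propT_lines' hK hn0 hn (fun i t => (⟨u i t, hmem i t⟩ : S))
    (fun i a b => Subtype.ext (hadd i a b)) (fun i j hij => (pair i j hij).imp (hp i j) (hp j i)) ?_
  rw [eq_top_iff]
  rintro ⟨x, hx⟩ -
  refine Subgroup.closure_induction (p := fun x hx => (⟨x, hx⟩ : S) ∈ Subgroup.closure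
    {g : S | ∃ i t, g = ⟨u i t, hmem i t⟩}) ?_ ?_ ?_ ?_ hx
  · rintro x ⟨i, t, rfl⟩
    exact Subgroup.subset_closure ⟨i, t, rfl⟩
  · exact one_mem _
  · intro x y hx hy h1 h2
    exact mul_mem h1 h2
  · intro x hx h1
    exact inv_mem h1

end Pool.Agent.Helper30.DN
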