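import Pool.Agent.Helper30.DN.Grp

/-!
# DN/Nor: normality, properness and the quotient
-/

set_option autoImplicit false

namespace Pool.Agent.Helper30.DN

open Pool.Agent.W661.RC (HasT)
open Pool.Agent.Helper3.CK (RF)
open Pool.Agent.Helper8.CK (RFR)

noncomputable section

section

variable {B : Type} [Ring B] {t : B}

/-- conjugation of a generator of `NN` by a generator of `GG` -/
theorem conj_gen (tc : ∀ z : B, t * z = z * t) {k l i j : Fin 7} (hkl : k ≠ l) (hij : i ≠ j)
    {d c : B} (hd : k < 3 → 3 ≤ l → ∃ d', d = t * d') (hc : 3 ≤ j → ∃ c', c = t * c') :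
    el k l d * el i j c * (el k l d)⁻¹ ∈ NN t := by
  -- the three easy cases
  have key : ∀ (i j : Fin 7) (c : B), i ≠ j → (3 ≤ j → ∃ c', c = t * c') → ¬ (l = i ∧ k = j) →
      el k l d * el i j c * (el k l d)⁻¹ ∈ NN t := by
    intro i j c hij hc hop
    by_cases hli : l = i
    · subst hli
      have hkj : k ≠ j := fun h => hop ⟨rfl, h⟩
      rw [conj1 hkl hij hkj]
      refine mul_mem (mem_NN hij hc) (mem_NN hkj fun h => ?_)
      obtain ⟨c', rfl⟩ := hc h
      exact ⟨d * c', by rw [← mul_assoc, ← tc, mul_assoc]⟩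
    · by_cases hkj : k = j
      · subst hkj
        rw [conj2 hkl hij (fun h => hli h.symm)]
        refine mul_mem (mem_NN hij hc) (inv_mem (mem_NN (fun h => hli h.symm) fun h => ?_))
        by_cases hk : 3 ≤ k
        · obtain ⟨c', rfl⟩ := hc hk
          exact ⟨c' * d, by rw [mul_assoc]⟩
        · obtain ⟨d', rfl⟩ := hd (not_le.1 hk) h
          exact ⟨c * d', by rw [← mul_assoc, ← tc, mul_assoc]⟩
      · rw [el_comm hkl hij hli hkj, mul_inv_cancel_right]
        exact mem_NN hij hc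
  by_cases hop : l = i ∧ k = j
  · obtain ⟨rfl, rfl⟩ := hop
    have hm : ∀ l k : Fin 7, ∃ m : Fin 7, m < 3 ∧ m ≠ l ∧ m ≠ k := by decide
    obtain ⟨m, hm3, hml, hmk⟩ := hm l k
    -- the conjugated subgroup
    set S : Subgroup (W B) := (NN t).comap (MulAut.conj (el k l d)).toMonoidHom with hS
    have hmem : ∀ g : W B, g ∈ S ↔ el k l d * g * (el k l d)⁻¹ ∈ NN t := fun g => Iff.rfl
    rw [← hmem]
    have h1 : ∀ c' : B, el l m c' ∈ S := fun c' => (hmem _).2
      (key l m c' hml.symm (fun h => absurd hm3 (not_lt.2 h)) fun h => hmk h.2.symm)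
    have h2 : ∀ c' : B, (3 ≤ k → ∃ c'', c' = t * c'') → el m k c' ∈ S := fun c' h => (hmem _).2
      (key m k c' hmk h fun h => hml h.1.symm)
    by_cases hk : 3 ≤ k
    · obtain ⟨c', rfl⟩ := hc hk
      have h := el_mem_mul S hml.symm hmk hij (h1 c') (h2 t fun _ => ⟨1, by rw [mul_one]⟩)
      rwa [← tc] at h
    · have h := el_mem_mul S hml.symm hmk hij (h1 c) (h2 1 fun h => absurd h hk)
      rwa [mul_one] at h
  · exact key i j c hij hc hop

theorem conj_NN (tc : ∀ z : B, t * z = z * t) {g : W B} (hg : g ∈ GG t) :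
    ∀ n ∈ NN t, g * n * g⁻¹ ∈ NN t := by
  -- the generators and their inverses
  have h1 : ∀ g ∈ gG t, ∀ n ∈ NN t, g * n * g⁻¹ ∈ NN t := by
    rintro g ⟨k, l, d, hkl, hd, rfl⟩
    have : NN t ≤ (NN t).comap (MulAut.conj (el k l d)).toMonoidHom := by
      rw [NN, Subgroup.closure_le]
      rintro n ⟨i, j, c, hij, hc, rfl⟩
      exact conj_gen tc hkl hij hd hc
    exact fun n hn => this hn
  have h2 : ∀ g ∈ gG t, g⁻¹ ∈ gG t := by
    rintro g ⟨k, l, d, hkl, hd, rfl⟩
    refine ⟨k, l, -d, hkl, fun h h' => ?_, (el_neg k l d).symm⟩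
    obtain ⟨d', rfl⟩ := hd h h'
    exact ⟨-d', by rw [mul_neg]⟩
  have key : ∀ g ∈ Subgroup.closure (gG t), (∀ n ∈ NN t, g * n * g⁻¹ ∈ NN t) ∧
      ∀ n ∈ NN t, g⁻¹ * n * g⁻¹⁻¹ ∈ NN t := by
    intro g hg
    induction hg using Subgroup.closure_induction with
    | mem g hg => exact ⟨h1 g hg, h1 _ (h2 g hg)⟩
    | one =>
      refine ⟨fun n hn => ?_, fun n hn => ?_⟩
      · rwa [one_mul, inv_one, mul_one]
      · rwa [inv_one, one_mul, inv_one, mul_one]
    | mul g h _ _ ihg ihh =>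
      refine ⟨fun n hn => ?_, fun n hn => ?_⟩
      · have := ihg.1 _ (ihh.1 n hn)
        have e : g * h * n * (g * h)⁻¹ = g * (h * n * h⁻¹) * g⁻¹ := by group
        rwa [e]
      · have := ihh.2 _ (ihg.2 n hn)
        have e : (g * h)⁻¹ * n * (g * h)⁻¹⁻¹ = h⁻¹ * (g⁻¹ * n * g⁻¹⁻¹) * h⁻¹⁻¹ := by group
        rwa [e]
    | inv g _ ih =>
      refine ⟨ih.2, fun n hn => ?_⟩
      rw [inv_inv]
      exact ih.1 n hn
  exact (key g hg).1

/-- the group `G` -/
abbrev Gt (t : B) : Type := GG t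

/-- the subgroup `N` of `G` -/
abbrev Nt (t : B) : Subgroup (Gt t) := (NN t).subgroupOf (GG t)

theorem nor (tc : ∀ z : B, t * z = z * t) : (Nt t).Normal :=
  ⟨fun n hn g => by
    rw [Subgroup.mem_subgroupOf] at hn ⊢
    exact conj_NN tc g.2 _ hn⟩

theorem tNt [Algebra F B] {x y a b u v : B} (D : Dat B x y a b u v t) : HasT (Nt t) :=
  Pool.Agent.N52.ST.hasT_of_surjective (Subgroup.subgroupOfEquivOfLe (NN_le t)).symm.toMonoidHom
    (Subgroup.subgroupOfEquivOfLe (NN_le t)).symm.surjective (tN D)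

/-- `N` is a proper subgroup -/
theorem ne_top {E : Type} [Ring E] [Nontrivial E] (f : B →+* E) (hf : f t = 0) : Nt t ≠ ⊤ := by
  intro htop
  -- the matrices over `E` which fix the fifth basis vector
  have key : ∀ g ∈ NN t, ∀ i : Fin 7, f ((g : Matrix (Fin 7) (Fin 7) B) i 4) = if i = 4 then 1 else 0 := by
    intro g hg
    have h2 : ∀ g ∈ gN t, ∀ i j : Fin 7, 3 ≤ j → f ((g : Matrix (Fin 7) (Fin 7) B) i j) =
        if i = j then 1 else 0 := by
      rintro g ⟨k, l, c, hkl, hc, rfl⟩ i j hj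
      rw [el_val hkl, Matrix.add_apply, map_add, Matrix.one_apply]
      by_cases h : k = i ∧ l = j
      · obtain ⟨rfl, rfl⟩ := h
        obtain ⟨c', rfl⟩ := hc hj
        rw [Matrix.single_apply_same, map_mul, hf, zero_mul, add_zero, apply_ite f, map_one, map_zero]
      · rw [Matrix.single_apply_of_ne _ _ _ _ _ h, map_zero, add_zero, apply_ite f, map_one, map_zero]
    have hinv : ∀ g ∈ gN t, g⁻¹ ∈ gN t := by
      rintro g ⟨k, l, d, hkl, hd, rfl⟩
      refine ⟨k, l, -d, hkl, fun h => ?_, (el_neg k l d).symm⟩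
      obtain ⟨d', rfl⟩ := hd h
      exact ⟨-d', by rw [mul_neg]⟩
    have h3 : ∀ g ∈ NN t, (∀ i j : Fin 7, 3 ≤ j → f ((g : Matrix (Fin 7) (Fin 7) B) i j) =
        if i = j then 1 else 0) ∧ ∀ i j : Fin 7, 3 ≤ j →
          f (((g⁻¹ : W B) : Matrix (Fin 7) (Fin 7) B) i j) = if i = j then 1 else 0 := by
      intro g hg
      have hmul : ∀ g h : W B, (∀ i j : Fin 7, 3 ≤ j → f ((g : Matrix (Fin 7) (Fin 7) B) i j) =
          if i = j then 1 else 0) → (∀ i j : Fin 7, 3 ≤ j →
          f ((h : Matrix (Fin 7) (Fin 7) B) i j) = if i = j then 1 else 0) →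
          ∀ i j : Fin 7, 3 ≤ j →
          f (((g * h : W B) : Matrix (Fin 7) (Fin 7) B) i j) = if i = j then 1 else 0 := by
        intro g h hg hh i j hj
        rw [Units.val_mul, Matrix.mul_apply, map_sum]
        have : ∀ k : Fin 7, f ((g : Matrix (Fin 7) (Fin 7) B) i k *
            (h : Matrix (Fin 7) (Fin 7) B) k j) =
            if k = j then f ((g : Matrix (Fin 7) (Fin 7) B) i j) else 0 := by
          intro k
          rw [map_mul, hh k j hj]
          split_ifs with hk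
          · rw [mul_one, hk]
          · rw [mul_zero]
        rw [Finset.sum_congr rfl fun k _ => this k, Finset.sum_ite_eq' Finset.univ j,
          if_pos (Finset.mem_univ _)]
        exact hg i j hj
      rw [NN] at hg
      induction hg using Subgroup.closure_induction with
      | mem g hg => exact ⟨h2 g hg, h2 _ (hinv g hg)⟩
      | one =>
        have h1 : ∀ i j : Fin 7, 3 ≤ j → f (((1 : W B) : Matrix (Fin 7) (Fin 7) B) i j) =
            if i = j then 1 else 0 := by
          intro i j _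
          rw [Units.val_one, Matrix.one_apply, apply_ite f, map_one, map_zero]
        exact ⟨h1, by rw [inv_one]; exact h1⟩
      | mul g h _ _ ihg ihh =>
        refine ⟨hmul g h ihg.1 ihh.1, ?_⟩
        rw [mul_inv_rev]
        exact hmul _ _ ihh.2 ihg.2
      | inv g _ ih =>
        refine ⟨ih.2, ?_⟩
        rw [inv_inv]
        exact ih.1
    intro i
    exact (h3 g hg).1 i 4 (by decide)
  have hmem : (⟨el 3 4 1, mem_GG (by decide) (fun h => absurd h (by decide))⟩ : Gt t) ∈ Nt t := by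
    rw [htop]
    exact Subgroup.mem_top _
  rw [Subgroup.mem_subgroupOf] at hmem
  have h := key _ hmem 3
  change f (((el 3 4 (1 : B) : W B) : Matrix (Fin 7) (Fin 7) B) 3 4) = _ at h
  rw [el_val (by decide), Matrix.add_apply, Matrix.single_apply_same, Matrix.one_apply,
    if_neg (by decide), if_neg (by decide), zero_add, map_one] at h
  exact one_ne_zero h

theorem rfG (h : RFR B) : RF (Gt t) :=
  Pool.Agent.Helper8.CK.RF.sub (Pool.Agent.Helper8.CK.RFR.units (Pool.Agent.Helper8.CK.RFR.mat h 7)) _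

/-! ### The quotient -/

/-- the index in the second block -/
abbrev sh (i : Fin 4) : Fin 7 := Fin.natAdd 3 i

theorem sh_ne {i j : Fin 4} (h : i ≠ j) : sh i ≠ sh j := fun h' => h (Fin.natAdd_injective 4 3 h')

theorem sh_lt (i : Fin 4) : ¬ sh i < 3 := by
  revert i
  decide

theorem sh_le (i : Fin 4) : 3 ≤ sh i := not_lt.1 (sh_lt i)

/-- the elementary matrices of the second block as elements of `G` -/
def ee (t : B) (i j : Fin 4) (c : B) : Gt t :=
  ⟨el (sh i) (sh j) c, by
    by_cases h : i = j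
    · rw [h, el_self]
      exact one_mem _
    · exact mem_GG (sh_ne h) fun h => absurd h (sh_lt i)⟩

variable (tc : ∀ z : B, t * z = z * t)

/-- the quotient group -/
def Qt (t : B) : Type := Gt t ⧸ Nt t

instance instQt (t : B) [(Nt t).Normal] : Group (Qt t) := inferInstanceAs (Group (Gt t ⧸ Nt t))

/-- the projection -/
def pr (t : B) [(Nt t).Normal] : Gt t →* Qt t := QuotientGroup.mk' (Nt t)

theorem pr_surj (t : B) [(Nt t).Normal] : Function.Surjective (pr t) :=
  QuotientGroup.mk'_surjective (Nt t)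

theorem pr_ker (t : B) [(Nt t).Normal] : (pr t).ker = Nt t := QuotientGroup.ker_mk' (Nt t)

theorem pr_eq_one (t : B) [(Nt t).Normal] (g : Gt t) : pr t g = 1 ↔ (g : W B) ∈ NN t := by
  rw [← MonoidHom.mem_ker, pr_ker, Subgroup.mem_subgroupOf]

/-- the elementary matrices in the quotient -/
def EE (t : B) [(Nt t).Normal] (i j : Fin 4) (c : B) : Qt t := pr t (ee t i j c)

theorem steQ (t : B) [(Nt t).Normal] : Ste B (Qt t) (EE t) t where
  add i j hij c d := by
    rw [EE, EE, EE, ← map_mul]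
    exact congrArg _ (Subtype.ext (el_add (sh_ne hij) c d))
  com i j k l hij hkl hjk hil c d := by
    rw [EE, EE, ← map_mul, ← map_mul]
    exact congrArg _ (Subtype.ext (el_comm (sh_ne hij) (sh_ne hkl) (sh_ne hjk) (sh_ne hil) c d))
  rel i j k hij hjk hik c d := by
    rw [EE, EE, EE, ← map_mul, ← map_mul, ← map_mul]
    exact congrArg _ (Subtype.ext (el_rel (sh_ne hij) (sh_ne hjk) (sh_ne hik) c d))
  tri i j hij c := (pr_eq_one t _).2 (mem_NN (sh_ne hij) fun _ => ⟨c, rfl⟩)
  gen := by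
    rw [eq_top_iff]
    intro q _
    obtain ⟨⟨g, hg⟩, rfl⟩ := pr_surj t q
    refine Subgroup.closure_induction (k := gG t)
      (p := fun g (hg : g ∈ GG t) => pr t ⟨g, hg⟩ ∈
        Subgroup.closure {g : Qt t | ∃ i j c, i ≠ j ∧ g = EE t i j c}) ?_ ?_ ?_ ?_ hg
    · intro g hg
      obtain ⟨i, j, c, hij, hc, rfl⟩ := hg
      by_cases hi : 3 ≤ i
      · by_cases hj : 3 ≤ j
        · have h3 : ∀ i : Fin 7, 3 ≤ i → ∃ i' : Fin 4, sh i' = i := by decide
          obtain ⟨i', rfl⟩ := h3 i hi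
          obtain ⟨j', rfl⟩ := h3 j hj
          exact Subgroup.subset_closure ⟨i', j', c, fun h => hij (by rw [h]), rfl⟩
        · have h1 : el i j c ∈ NN t := mem_NN hij fun h => absurd h hj
          rw [(pr_eq_one t _).2 h1]
          exact one_mem _
      · have h1 : el i j c ∈ NN t := mem_NN hij fun h => hc (not_le.1 hi) h
        rw [(pr_eq_one t _).2 h1]
        exact one_mem _
    · exact (map_one (pr t)).symm ▸ one_mem _
    · intro g h hg hh ihg ihh
      exact mul_mem ihg ihh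
    · intro g hg ih
      exact inv_mem ih

theorem KK_le (t : B) : KK B ≤ GG t := by
  rw [KK, Subgroup.closure_le]
  rintro g ⟨i, j, c, hij, hi, hj, rfl⟩
  have h3 : ∀ i : Fin 7, i ∈ ({3, 5, 6} : Finset (Fin 7)) → ¬ i < 3 := by decide
  exact mem_GG hij fun h => absurd h (h3 i hi)

theorem tKQ [Algebra F B] {x y a b u v : B} (D : Dat B x y a b u v t) [(Nt t).Normal] :
    HasT (Subgroup.closure {g : Qt t | ∃ i j c, i ≠ j ∧ i ≠ 1 ∧ j ≠ 1 ∧ g = EE t i j c}) := by
  -- the homomorphism from `KK`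
  set φ : KK B →* Qt t := (pr t).comp (Subgroup.inclusion (KK_le t)) with hφ
  have e : φ.range =
      Subgroup.closure {g : Qt t | ∃ i j c, i ≠ j ∧ i ≠ 1 ∧ j ≠ 1 ∧ g = EE t i j c} := by
    apply le_antisymm
    · rintro q ⟨⟨g, hg⟩, rfl⟩
      refine Subgroup.closure_induction (k := gK B)
        (p := fun g (hg : g ∈ KK B) => φ ⟨g, hg⟩ ∈
          Subgroup.closure {g : Qt t | ∃ i j c, i ≠ j ∧ i ≠ 1 ∧ j ≠ 1 ∧ g = EE t i j c})
        ?_ ?_ ?_ ?_ hg
      · intro g hg
        obtain ⟨i, j, c, hij, hi, hj, rfl⟩ := hg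
        have h3 : ∀ i : Fin 7, i ∈ ({3, 5, 6} : Finset (Fin 7)) →
          ∃ i' : Fin 4, i' ≠ 1 ∧ sh i' = i := by decide
        obtain ⟨i', hi', rfl⟩ := h3 i hi
        obtain ⟨j', hj', rfl⟩ := h3 j hj
        exact Subgroup.subset_closure ⟨i', j', c, fun h => hij (by rw [h]), hi', hj', rfl⟩
      · exact (map_one φ).symm ▸ one_mem _
      · intro g h hg hh ihg ihh
        exact mul_mem ihg ihh
      · intro g hg ih
        exact inv_mem ih
    · rw [Subgroup.closure_le]
      rintro q ⟨i, j, c, hij, hi, hj, rfl⟩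
      have h3 : ∀ i : Fin 4, i ≠ 1 → sh i ∈ ({3, 5, 6} : Finset (Fin 7)) := by decide
      have hm : el (sh i) (sh j) c ∈ KK B :=
        Subgroup.subset_closure ⟨_, _, c, sh_ne hij, h3 i hi, h3 j hj, rfl⟩
      exact ⟨⟨_, hm⟩, rfl⟩
  rw [← e]
  exact Pool.Agent.N52.ST.hasT_of_surjective φ.rangeRestrict φ.rangeRestrict_surjective (tK D)

/-- GRP from RING and STEIN -/
theorem grp_of (hR : S_RING) (hS : S_STEIN) (hC : Pool.Agent.Helper3.CK.S_CLOS) : S_GRP := by
  obtain ⟨B, _, _, x, y, a, b, u, v, t, D⟩ := hR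
  have hn : (Nt t).Normal := nor D.tc
  refine ⟨Gt t, inferInstance, Nt t, rfG D.rf, tG D, tNt D, hn, ?_, ?_⟩
  · obtain ⟨E, _, _, f, hf⟩ := D.nt
    exact ne_top f hf
  · intro P _ hP φ hφ g
    have hQ : HasT (Qt t) := Pool.Agent.N52.ST.hasT_of_surjective (pr t) (pr_surj t) (tG D)
    -- the induced homomorphism
    let ψ : Qt t →* P := QuotientGroup.lift (Nt t) φ hφ
    have h := hS hC B (Qt t) (EE t) x y a b u v t (steQ t) D.tc D.r1 D.r2 hQ (tKQ D) P hP ψ (pr t g)
    exact h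

end

end

end Pool.Agent.Helper30.DN
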