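import Pool.Agent.Helper3.CK.Stm
import Pool.Agent.Helper8.CK.Rf

/-!
# DN: statements of the parts of the project (a dense normal subgroup with property (T))
-/

set_option autoImplicit false

namespace Pool.Agent.Helper30.DN

open Pool.Agent.W661.RC (HasT)
open Pool.Agent.H21R2 (IsHyperlinear)
open Pool.Agent.Helper3.CK (S_CLOS RF)
open Pool.Agent.Helper8.CK (RFR)
open Pool.Agent.Helper278.TB (HP)

noncomputable section

instance fact1031 : Fact (Nat.Prime 1031) := ⟨by norm_num⟩

/-- the field with 1031 elements -/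
abbrev F : Type := ZMod 1031

/-- The ring data: an algebra `B` over the field `F` with 1031 elements, generated by
`x, y, a, b, u, v, t`, with `t` central, `y x = 1 + t u` and `b (1 - x y) a = 1 + t v`; the ring `B`
is residually finite and has a homomorphism to a nonzero ring which kills `t`. -/
structure Dat (B : Type) [Ring B] [Algebra F B] (x y a b u v t : B) : Prop where
  tc : ∀ z : B, t * z = z * t
  r1 : y * x = 1 + t * u
  r2 : b * (1 - x * y) * a = 1 + t * v
  gen : Algebra.adjoin F {x, y, a, b, u, v, t} = ⊤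
  rf : RFR B
  nt : ∃ (E : Type) (_ : Ring E) (_ : Nontrivial E) (f : B →+* E), f t = 0

/-- RING: the ring data exist. -/
def S_RING : Prop := ∃ (B : Type) (_ : Ring B) (_ : Algebra F B) (x y a b u v t : B),
  Dat B x y a b u v t

/-- LT: property (T) of a subgroup generated by at most 32 lines over a field with at least 1024
elements, any two of which form a Heisenberg pair. -/
def S_LT : Prop :=
  ∀ (Γ : Type) [Group Γ] (K : Type) [Field K] [Fintype K], 1024 ≤ Fintype.card K →
    ∀ (n : ℕ), 0 < n → n ≤ 32 → ∀ (u : Fin n → K → Γ),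
    (∀ i a b, u i (a + b) = u i a * u i b) →
    (∀ i j, i ≠ j → HP (u i) (u j) ∨ HP (u j) (u i)) →
    HasT (Subgroup.closure {g | ∃ i t, g = u i t})

/-- Steinberg data modulo `t`: elements `E i j c` of the group `Γ`, `i ≠ j`, `c ∈ B`, which satisfy
the relations of the elementary matrices `1 + c e_ij`, trivial for `c ∈ t B`. -/
structure Ste (B Γ : Type) [Ring B] [Group Γ] (E : Fin 4 → Fin 4 → B → Γ) (t : B) : Prop where
  add : ∀ i j, i ≠ j → ∀ c d, E i j (c + d) = E i j c * E i j d
  com : ∀ i j k l, i ≠ j → k ≠ l → j ≠ k → i ≠ l → ∀ c d, E i j c * E k l d = E k l d * E i j c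
  rel : ∀ i j k, i ≠ j → j ≠ k → i ≠ k → ∀ c d,
    E i j c * E j k d = E j k d * (E i j c * E i k (c * d))
  tri : ∀ i j, i ≠ j → ∀ c, E i j (t * c) = 1
  gen : Subgroup.closure {g | ∃ i j c, i ≠ j ∧ g = E i j c} = ⊤

/-- STEIN: a Kazhdan group with Steinberg data modulo `t` has no nontrivial homomorphism to a
hyperlinear group, if `y x = 1` and `b (1 - x y) a = 1` modulo the central element `t`. -/
def S_STEIN : Prop :=
  S_CLOS → ∀ (B Γ : Type) [Ring B] [Group Γ] (E : Fin 4 → Fin 4 → B → Γ) (x y a b u v t : B),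
    Ste B Γ E t → (∀ z : B, t * z = z * t) → y * x = 1 + t * u → b * (1 - x * y) * a = 1 + t * v →
    HasT Γ →
    HasT (Subgroup.closure {g | ∃ i j c, i ≠ j ∧ i ≠ 1 ∧ j ≠ 1 ∧ g = E i j c}) →
    ∀ (P : Type) [Group P], IsHyperlinear P → ∀ (φ : Γ →* P) (g : Γ), φ g = 1

/-- DATA: the groups. -/
structure Grp (G : Type) [Group G] (N : Subgroup G) : Prop where
  rf : RF G
  tG : HasT G
  tN : HasT N
  nor : N.Normal
  ne : N ≠ ⊤
  hyp : ∀ (P : Type) [Group P], IsHyperlinear P → ∀ φ : G →* P, N ≤ φ.ker → ∀ g, φ g = 1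

/-- GRP -/
def S_GRP : Prop := ∃ (G : Type) (_ : Group G) (N : Subgroup G), Grp G N

end

end Pool.Agent.Helper30.DN
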